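import Pool.Agent.Helper99.EXC.GoalsS

/-! # Project EXC, packet FFP: one variable calculus. -/

open Set Filter

namespace Pool.Agent.Helper34.EXC

open Pool.Agent.Helper99.EXC

theorem glue (f1 f2 f1' f2' : ℝ → ℝ) (a : ℝ) (h1 : ∀ t, HasDerivAt f1 (f1' t) t)
    (h2 : ∀ t, HasDerivAt f2 (f2' t) t) (h0 : f1 a = f2 a) (h0' : f1' a = f2' a) (t : ℝ) :
    HasDerivAt (fun u => if u ≤ a then f1 u else f2 u) (if t ≤ a then f1' t else f2' t) t := by
  rcases lt_trichotomy t a with h | h | h
  · rw [if_pos h.le]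
    apply (h1 t).congr_of_eventuallyEq
    filter_upwards [Iio_mem_nhds h] with u hu
    rw [if_pos (le_of_lt hu)]
  · subst h
    rw [if_pos le_rfl]
    rw [← hasDerivWithinAt_univ, ← Iic_union_Ici (a := t)]
    apply HasDerivWithinAt.union
    · apply (h1 t).hasDerivWithinAt.congr
      · intro u hu
        exact if_pos hu
      · exact if_pos le_rfl
    · rw [h0']
      apply (h2 t).hasDerivWithinAt.congr
      · intro u hu
        by_cases hut : u ≤ t
        · have : u = t := le_antisymm hut hu
          subst this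
          rw [if_pos le_rfl, h0]
        · rw [if_neg hut]
      · rw [if_pos le_rfl, h0]
  · rw [if_neg (not_le.2 h)]
    apply (h2 t).congr_of_eventuallyEq
    filter_upwards [Ioi_mem_nhds h] with u hu
    rw [if_neg (not_le.2 hu)]

theorem FF_deriv (t : ℝ) : HasDerivAt FF (sg t) t := by
  have hp : ∀ t : ℝ, HasDerivAt (fun u : ℝ => 1 / 2 + u ^ 3 - u ^ 4 / 2) (3 * t ^ 2 - 2 * t ^ 3) t := by
    intro t
    have h1 := ((hasDerivAt_id t).pow 3).const_add (1 / 2 : ℝ)
    have h2 := ((hasDerivAt_id t).pow 4).div_const (2 : ℝ)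
    have h3 := h1.sub h2
    refine h3.congr_deriv ?_
    simp
    ring
  have h1 := glue (fun u : ℝ => 1 / 2 + u ^ 3 - u ^ 4 / 2) (fun u => u) (fun t => 3 * t ^ 2 - 2 * t ^ 3)
    (fun _ => 1) 1 hp (fun t => hasDerivAt_id t) (by norm_num) (by norm_num)
  have h2 := glue (fun _ : ℝ => (1 / 2 : ℝ)) _ (fun _ => 0) _ 0 (fun t => hasDerivAt_const t _) h1
    (by norm_num) (by norm_num) t
  exact h2

theorem sg_deriv (t : ℝ) : HasDerivAt sg (ss t) t := by
  have hp : ∀ t : ℝ, HasDerivAt (fun u : ℝ => 3 * u ^ 2 - 2 * u ^ 3) (6 * t - 6 * t ^ 2) t := by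
    intro t
    have h1 := ((hasDerivAt_id t).pow 2).const_mul (3 : ℝ)
    have h2 := ((hasDerivAt_id t).pow 3).const_mul (2 : ℝ)
    have h3 := h1.sub h2
    refine h3.congr_deriv ?_
    simp
    ring
  have h1 := glue (fun u : ℝ => 3 * u ^ 2 - 2 * u ^ 3) (fun _ => 1) (fun t => 6 * t - 6 * t ^ 2)
    (fun _ => 0) 1 hp (fun t => hasDerivAt_const t _) (by norm_num) (by norm_num)
  have h2 := glue (fun _ : ℝ => (0 : ℝ)) _ (fun _ => 0) _ 0 (fun t => hasDerivAt_const t _) h1
    (by norm_num) (by norm_num) t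
  exact h2

theorem ss_bd (u : ℝ) : 0 ≤ ss u ∧ ss u ≤ 2 := by
  unfold ss
  split_ifs with h1 h2
  · norm_num
  · push Not at h1
    constructor <;> nlinarith [sq_nonneg (2 * u - 1)]
  · norm_num

theorem sg_bd (u : ℝ) : 0 ≤ sg u ∧ sg u ≤ 1 := by
  unfold sg
  split_ifs with h1 h2
  · norm_num
  · push Not at h1
    constructor
    · nlinarith [mul_nonneg (sq_nonneg u) (by linarith : (0 : ℝ) ≤ 3 - 2 * u)]
    · nlinarith [mul_nonneg (sq_nonneg (1 - u)) (by linarith : (0 : ℝ) ≤ 1 + 2 * u)]
  · norm_num

theorem ss_lip (u v : ℝ) : |ss u - ss v| ≤ 6 * |u - v| := by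
  wlog huv : u ≤ v generalizing u v
  · rw [abs_sub_comm, abs_sub_comm u v]
    exact this v u (le_of_not_ge huv)
  rw [abs_of_nonpos (by linarith : u - v ≤ 0)]
  unfold ss
  split_ifs with h1 h2 h3 h4 h5 h6 <;> rw [abs_le] <;> (try push Not at *) <;>
    constructor <;> nlinarith

theorem sg_mono : Monotone sg := by
  apply monotone_of_deriv_nonneg (fun t => (sg_deriv t).differentiableAt)
  intro t
  rw [(sg_deriv t).deriv]
  exact (ss_bd t).1

/-- comparison on the half line -/
theorem cmp (f f' G G' : ℝ → ℝ) (hf : ∀ t, HasDerivAt f (f' t) t) (hG : ∀ t, HasDerivAt G (G' t) t)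
    (h0 : f 0 = 0) (g0 : G 0 = 0) (hb : ∀ t, 0 ≤ t → f' t ≤ G' t) (t : ℝ) (ht : 0 ≤ t) :
    f t ≤ G t := by
  have h1 : MonotoneOn (fun s => G s - f s) (Ici 0) := by
    apply monotoneOn_of_deriv_nonneg (convex_Ici 0)
    · exact fun s _ => ((hG s).sub (hf s)).continuousAt.continuousWithinAt
    · exact fun s _ => ((hG s).sub (hf s)).differentiableAt.differentiableWithinAt
    · intro s hs
      rw [interior_Ici] at hs
      have : deriv (fun s => G s - f s) s = G' s - f' s := ((hG s).sub (hf s)).deriv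
      rw [this]
      linarith [hb s (le_of_lt hs)]
  have h2 := h1 (mem_Ici.2 le_rfl) (mem_Ici.2 ht) ht
  simp only [h0, g0] at h2
  linarith

theorem cmp_abs (f f' : ℝ → ℝ) (n : ℕ) (C : ℝ) (hf : ∀ t, HasDerivAt f (f' t) t)
    (h0 : f 0 = 0) (hb : ∀ t, |f' t| ≤ C * (n + 1) * |t| ^ n) (t : ℝ) :
    |f t| ≤ C * |t| ^ (n + 1) := by
  have key : ∀ (f f' : ℝ → ℝ), (∀ t, HasDerivAt f (f' t) t) → f 0 = 0 →
      (∀ t, |f' t| ≤ C * (n + 1) * |t| ^ n) → ∀ t, 0 ≤ t → f t ≤ C * |t| ^ (n + 1) := by
    intro f f' hf h0 hb t ht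
    rw [abs_of_nonneg ht]
    refine cmp f f' (fun t => C * t ^ (n + 1)) (fun t => C * ((n + 1) * t ^ n)) hf ?_ h0 (by simp) ?_ t ht
    · intro s
      have := ((hasDerivAt_id s).pow (n + 1)).const_mul C
      refine this.congr_deriv ?_
      simp
    · intro s hs
      have := hb s
      rw [abs_of_nonneg hs] at this
      have h2 := le_abs_self (f' s)
      nlinarith [this, h2]
  have hneg : ∀ (f f' : ℝ → ℝ), (∀ t, HasDerivAt f (f' t) t) →
      ∀ t, HasDerivAt (fun s => f (-s)) (-(f' (-t))) t := by
    intro f f' hf t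
    have := (hf (-t)).comp t (hasDerivAt_neg t)
    refine this.congr_deriv ?_
    ring
  rw [abs_le']
  rcases le_total 0 t with ht | ht
  · refine ⟨key f f' hf h0 hb t ht, ?_⟩
    exact key (fun s => -(f s)) (fun s => -(f' s)) (fun s => (hf s).neg) (by simp [h0])
      (fun s => by rw [abs_neg]; exact hb s) t ht
  · have ht' : 0 ≤ -t := by linarith
    constructor
    · have := key (fun s => f (-s)) (fun s => -(f' (-s))) (hneg f f' hf) (by simpa using h0)
        (fun s => by rw [abs_neg]; simpa using hb (-s)) (-t) ht'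
      simpa using this
    · have := key (fun s => -(f (-s))) (fun s => -(-(f' (-s)))) (fun s => (hneg f f' hf s).neg)
        (by simpa using h0)
        (fun s => by rw [abs_neg, abs_neg]; simpa using hb (-s)) (-t) ht'
      simpa using this

theorem sg_taylor (u h : ℝ) : |sg (u + h) - sg u - ss u * h| ≤ 3 * |h| ^ 2 := by
  apply cmp_abs (fun h => sg (u + h) - sg u - ss u * h) (fun h => ss (u + h) - ss u) 1 3
  · intro t
    have h1 : HasDerivAt (fun h => sg (u + h)) (ss (u + t)) t := by
      have := (sg_deriv (u + t)).comp t ((hasDerivAt_id t).const_add u)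
      refine this.congr_deriv ?_
      ring
    have h2 : HasDerivAt (fun h : ℝ => ss u * h) (ss u) t := by
      have := (hasDerivAt_id t).const_mul (ss u)
      refine this.congr_deriv ?_
      ring
    exact (h1.sub_const _).sub h2
  · simp
  · intro t
    have := ss_lip (u + t) u
    rw [add_sub_cancel_left] at this
    norm_num
    linarith

theorem FF_taylor (u h : ℝ) : |FF (u + h) - FF u - sg u * h - ss u * h ^ 2 / 2| ≤ |h| ^ 3 := by
  have key := cmp_abs (fun h => FF (u + h) - FF u - sg u * h - ss u * h ^ 2 / 2)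
    (fun h => sg (u + h) - sg u - ss u * h) 2 1 ?_ ?_ ?_ h
  · simpa using key
  · intro t
    have h1 : HasDerivAt (fun h => FF (u + h)) (sg (u + t)) t := by
      have := (FF_deriv (u + t)).comp t ((hasDerivAt_id t).const_add u)
      refine this.congr_deriv ?_
      ring
    have h2 : HasDerivAt (fun h : ℝ => sg u * h) (sg u) t := by
      have := (hasDerivAt_id t).const_mul (sg u)
      refine this.congr_deriv ?_
      ring
    have h3 : HasDerivAt (fun h : ℝ => ss u * h ^ 2 / 2) (ss u * t) t := by
      have := (((hasDerivAt_id t).pow 2).const_mul (ss u)).div_const (2 : ℝ)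
      refine this.congr_deriv ?_
      simp
      ring
    exact ((h1.sub_const _).sub h2).sub h3
  · simp
  · intro t
    have := sg_taylor u t
    rw [sq_abs] at this
    norm_num
    exact this

theorem tangent (u v : ℝ) : FF u + sg u * (v - u) ≤ FF v := by
  have hneg : ∀ t, HasDerivAt (fun s => FF (u - s)) (-(sg (u - t))) t := by
    intro t
    have := (FF_deriv (u - t)).comp t ((hasDerivAt_id t).const_sub u)
    refine this.congr_deriv ?_
    ring
  have hpos : ∀ t, HasDerivAt (fun s => FF (u + s)) (sg (u + t)) t := by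
    intro t
    have := (FF_deriv (u + t)).comp t ((hasDerivAt_id t).const_add u)
    refine this.congr_deriv ?_
    ring
  have hl : ∀ c t : ℝ, HasDerivAt (fun s : ℝ => c * s) c t := by
    intro c t
    have := (hasDerivAt_id t).const_mul c
    refine this.congr_deriv ?_
    ring
  rcases le_total u v with h | h
  · have := cmp (fun s => sg u * s) (fun _ => sg u) (fun s => FF (u + s) - FF u) (fun s => sg (u + s))
      (hl _) (fun t => (hpos t).sub_const _) (by simp) (by simp)
      (fun t ht => sg_mono (by linarith)) (v - u) (by linarith)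
    simp only [add_sub_cancel] at this
    linarith
  · have := cmp (fun s => -(sg u) * s) (fun _ => -(sg u)) (fun s => FF (u - s) - FF u)
      (fun s => -(sg (u - s)))
      (hl _) (fun t => (hneg t).sub_const _) (by simp) (by simp)
      (fun t ht => neg_le_neg (sg_mono (by linarith))) (u - v) (by linarith)
    simp only [sub_sub_cancel] at this
    nlinarith

theorem FFP : FFP_stmt := by
  refine ⟨?_, ?_, ?_, ?_, ?_, sg_bd, ss_bd, tangent, ?_, ?_, ss_lip, FF_taylor⟩
  · intro u
    unfold FF
    split_ifs with h1 h2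
    · linarith
    · push Not at h1
      nlinarith [mul_nonneg (pow_nonneg (by linarith : (0 : ℝ) ≤ 1 - u) 3)
        (by linarith : (0 : ℝ) ≤ 1 + u)]
    · exact le_rfl
  · intro u
    unfold FF
    split_ifs with h1 h2
    · exact le_rfl
    · push Not at h1
      nlinarith [mul_nonneg (pow_nonneg h1.le 3) (by linarith : (0 : ℝ) ≤ 2 - u)]
    · push Not at h2
      linarith
  · intro u hu
    unfold FF
    rw [if_neg (by linarith)]
    split_ifs with h2
    · have : u = 1 := le_antisymm h2 hu
      subst this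
      norm_num
    · rfl
  · intro u hu
    unfold FF
    rw [if_pos hu]
  · intro u
    unfold FF
    split_ifs with h1 h2
    · have := abs_nonneg u
      linarith
    · push Not at h1
      rw [abs_of_pos h1]
      have h3 : u ^ 3 ≤ u := by nlinarith [mul_nonneg h1.le (by nlinarith : (0 : ℝ) ≤ 1 - u ^ 2)]
      have h4 : 0 ≤ u ^ 4 := by positivity
      linarith
    · have := le_abs_self u
      linarith
  · intro u v
    have := Convex.norm_image_sub_le_of_norm_hasDerivWithin_le (f := FF) (f' := sg) (C := 1)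
      (s := univ) (x := v) (y := u) (fun x _ => (FF_deriv x).hasDerivWithinAt)
      (fun x _ => by
        rw [Real.norm_eq_abs, abs_of_nonneg (sg_bd x).1]
        exact (sg_bd x).2) convex_univ (mem_univ _) (mem_univ _)
    simpa using this
  · intro u v
    have := Convex.norm_image_sub_le_of_norm_hasDerivWithin_le (f := sg) (f' := ss) (C := 2)
      (s := univ) (x := v) (y := u) (fun x _ => (sg_deriv x).hasDerivWithinAt)
      (fun x _ => by
        rw [Real.norm_eq_abs, abs_of_nonneg (ss_bd x).1]
        exact (ss_bd x).2) convex_univ (mem_univ _) (mem_univ _)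
    simpa using this

end Pool.Agent.Helper34.EXC
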